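import Pool.Agent.Lib.EcV.Val

/-!
# EcV.Five: the statement about flags for `k = 5`

All flags are covered by two half planes of flags, or by one half plane of a flag and a set of flags with
value at least five.
-/

set_option autoImplicit false

namespace Pool.Agent.Lib.EcV

open Finset Classical Pool.Agent.Lib.Pec6744 Pool.Agent.Lib.EcR Pool.Agent.Lib.EcW

variable {N : ℕ} {P : Finset E2} {x y : Fin N → E2}

/-- Cramer's rule for an affine function vanishing at the first point -/
theorem cramer (a b d z w : E2) :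
    orient a b z * orient a d w = orient a b d * orient a z w + orient a b w * orient a d z := by
  unfold orient
  ring

theorem ne_of_nm {a z : Fin N} (h : z ∉ D x y a) : z ≠ a := by
  rintro rfl
  exact h (self_mem_D z)

/-- the flags outside of the half plane of `b`, and `s` -/
noncomputable def Tc (x y : Fin N → E2) (b s : Fin N) : Finset (Fin N) :=
  insert s (univ.filter (fun z => z ∉ D x y b))

theorem mem_Tc {b s z : Fin N} : z ∈ Tc x y b s ↔ z = s ∨ z ∉ D x y b := by
  unfold Tc
  rw [mem_insert, mem_filter]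
  exact ⟨fun h => h.elim Or.inl (fun h => Or.inr h.2), fun h => h.elim Or.inl (fun h => Or.inr ⟨mem_univ _, h⟩)⟩

/-- a set with few vertices: the basic step -/
theorem step (F : Flg P x y) (N1 : ∀ b c, ∃ z, z ∉ D x y b ∧ z ∉ D x y c)
    (N2 : ∀ b T, (∀ z, z ∉ D x y b → z ∈ T) → (V x T).card + (Sf x y T).card ≤ 4)
    {b s v : Fin N} (hs : ∀ z, z ∈ D x y s → z ∈ D x y b) (hv : v ∉ D x y b) (hvV : v ∈ V x univ) :
    ∃ u, u ∉ D x y b ∧ u ≠ v ∧ V x (Tc x y b s) = {s, v, u} ∧
      ((s ∈ D x y v ∧ u ∉ D x y v) ∨ (s ∉ D x y v ∧ u ∈ D x y v)) ∧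
      ((s ∈ D x y u ∧ v ∉ D x y u) ∨ (s ∉ D x y u ∧ v ∈ D x y u)) := by
  set T := Tc x y b s with hT
  have hsT : s ∈ T := mem_Tc.2 (Or.inl rfl)
  have hvT : v ∈ T := mem_Tc.2 (Or.inr hv)
  have hsb : s ∈ D x y b := hs s (self_mem_D s)
  have hsv : s ≠ v := fun h => hv (h ▸ hsb)
  have hsS : s ∈ Sf x y T := by
    refine mem_Sf.2 ⟨hsT, fun j hj hjs => ?_⟩
    rcases mem_Tc.1 hj with h | h
    · exact absurd h hjs
    · exact (not_mem_D F).1 (fun h1 => h (hs j h1))
  have hsV : s ∈ V x T := Sf_subset_V F T hsS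
  have hvV' : v ∈ V x T := V_mono (subset_univ _) hvV hvT
  obtain ⟨z, hz1, hz2⟩ := N1 b v
  have hzv : z ≠ v := ne_of_nm hz2
  have hzs : z ≠ s := fun h => hz1 (h ▸ hsb)
  have hcard : 3 ≤ T.card := by
    have h1 : ({s, v, z} : Finset (Fin N)) ⊆ T := by
      intro q hq
      rw [mem_insert, mem_insert, mem_singleton] at hq
      rcases hq with rfl | rfl | rfl
      · exact hsT
      · exact hvT
      · exact mem_Tc.2 (Or.inr hz1)
    have h2 := card_le_card h1
    rw [card_insert_of_notMem, card_pair (Ne.symm hzv)] at h2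
    · exact h2
    · rw [mem_insert, mem_singleton, not_or]
      exact ⟨hsv, Ne.symm hzs⟩
  have h3 := three_le_V F hcard
  have h4 := N2 b T (fun z hz => mem_Tc.2 (Or.inr hz))
  have h5 : 1 ≤ (Sf x y T).card := card_pos.2 ⟨s, hsS⟩
  have hV3 : (V x T).card = 3 := by omega
  have hS1 : (Sf x y T).card = 1 := by omega
  obtain ⟨s', hs'⟩ := card_eq_one.1 hS1
  have hss' : s = s' := by
    rw [hs', mem_singleton] at hsS
    exact hsS
  subst hss'
  have hpair : ({s, v} : Finset (Fin N)) ⊆ V x T := by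
    intro q hq
    rw [mem_insert, mem_singleton] at hq
    rcases hq with rfl | rfl
    · exact hsV
    · exact hvV'
  obtain ⟨u, hu⟩ : (V x T \ {s, v}).Nonempty := by
    apply card_pos.1
    rw [card_sdiff_of_subset hpair, hV3, card_pair hsv]
    norm_num
  obtain ⟨huV, hun⟩ := mem_sdiff.1 hu
  rw [mem_insert, mem_singleton, not_or] at hun
  obtain ⟨hus, huv⟩ := hun
  have huT := V_subset T huV
  have hub : u ∉ D x y b := (mem_Tc.1 huT).resolve_left hus
  have hVeq : V x T = {s, v, u} := by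
    symm
    apply eq_of_subset_of_card_le
    · intro q hq
      rw [mem_insert, mem_insert, mem_singleton] at hq
      rcases hq with rfl | rfl | rfl
      · exact hsV
      · exact hvV'
      · exact huV
    · rw [hV3, card_insert_of_notMem, card_pair (Ne.symm huv)]
      rw [mem_insert, mem_singleton, not_or]
      exact ⟨hsv, Ne.symm hus⟩
  -- a vertex which is not self sees exactly one of the other two
  have key : ∀ p q r : Fin N, V x T = {p, q, r} → p ∈ T → p ∉ Sf x y T →
      (q ∈ D x y p ∧ r ∉ D x y p) ∨ (q ∉ D x y p ∧ r ∈ D x y p) := by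
    intro p q r hV hpT hpS
    have hall : ¬ (q ∈ D x y p ∧ r ∈ D x y p) := by
      rintro ⟨hq, hr⟩
      obtain ⟨z, hz1, hz2⟩ := N1 b p
      apply hz2
      have := (aff_orient (x p) (y p)).neg.le F (T := T) (r := 0) (fun w hw => ?_) (j := z)
        (mem_Tc.2 (Or.inr hz1))
      · rw [mem_D]
        linarith
      · rw [hV, mem_insert, mem_insert, mem_singleton] at hw
        rw [mem_D] at hq hr
        rcases hw with rfl | rfl | rfl
        · rw [orient_self_left, neg_zero]
        · linarith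
        · linarith
    have hone : q ∈ D x y p ∨ r ∈ D x y p := by
      by_contra hcon
      rw [not_or] at hcon
      apply hpS
      refine mem_Sf.2 ⟨hpT, fun j hj hjp => ?_⟩
      refine lt_of_le_of_ne ?_ (g_ne F hjp)
      refine (aff_orient (x p) (y p)).le F (T := T) (r := 0) (fun w hw => ?_) hj
      rw [hV, mem_insert, mem_insert, mem_singleton] at hw
      rcases hw with rfl | rfl | rfl
      · rw [orient_self_left]
      · exact ((not_mem_D F).1 hcon.1).le
      · exact ((not_mem_D F).1 hcon.2).le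
    tauto
  refine ⟨u, hub, huv, hVeq, key v s u ?_ hvT ?_, key u s v ?_ huT ?_⟩
  · rw [hVeq]
    ext q
    simp only [mem_insert, mem_singleton]
    tauto
  · rw [hs', mem_singleton]
    exact Ne.symm hsv
  · rw [hVeq]
    ext q
    simp only [mem_insert, mem_singleton]
    tauto
  · rw [hs', mem_singleton]
    exact hus

/-- the order around a hull vertex -/
theorem suffix (F : Flg P x y) {σ : ℝ} {a d : Fin N}
    (hedge : ∀ z, z ≠ a → z ≠ d → 0 < σ * orient (x a) (x d) (x z)) (hd : d ∉ D x y a)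
    {z w : Fin N} (hz : z ∉ D x y a) (hzd : z ≠ d) (hw : w ∈ D x y a) (hwa : w ≠ a) :
    0 < σ * orient (x a) (x z) (x w) := by
  have hza : z ≠ a := ne_of_nm hz
  have hwd : w ≠ d := fun h => hd (h ▸ hw)
  have e := cramer (x a) (y a) (x d) (x z) (x w)
  have g1 := (not_mem_D F).1 hd
  have g2 := (not_mem_D F).1 hz
  have g3 := pos_of_mem_D F hwa hw
  have o1 := hedge z hza hzd
  have o2 := hedge w hwa hwd
  have m1 := mul_neg_of_neg_of_pos g2 o2
  have m2 := mul_pos g3 o1
  have m3 : orient (x a) (y a) (x d) * (σ * orient (x a) (x z) (x w)) < 0 := by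
    have : orient (x a) (y a) (x d) * (σ * orient (x a) (x z) (x w)) =
        orient (x a) (y a) (x z) * (σ * orient (x a) (x d) (x w)) -
          orient (x a) (y a) (x w) * (σ * orient (x a) (x d) (x z)) := by
      linear_combination (-σ) * e
    rw [this]
    linarith
  by_contra hcon
  have := mul_nonneg_of_nonpos_of_nonpos g1.le (not_lt.1 hcon)
  linarith

/-- from a state to the next one -/
theorem next (F : Flg P x y) (N1 : ∀ b c, ∃ z, z ∉ D x y b ∧ z ∉ D x y c)
    (N2 : ∀ b T, (∀ z, z ∉ D x y b → z ∈ T) → (V x T).card + (Sf x y T).card ≤ 4)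
    {σ : ℝ} (hσ : σ ≠ 0) {a d : Fin N} (had : a ≠ d) (haV : a ∈ V x univ) (hdV : d ∈ V x univ)
    (hedge : ∀ z, z ≠ a → z ≠ d → 0 < σ * orient (x a) (x d) (x z)) (hd : d ∉ D x y a)
    {b : Fin N} (hb1 : ∀ z, z ∈ D x y a → z ∈ D x y b) (hb2 : d ∉ D x y b) :
    ∃ u, u ∉ D x y b ∧ u ≠ a ∧ u ≠ d ∧ (∀ z, z ∈ D x y a → z ∈ D x y u) ∧ d ∉ D x y u ∧
      ∀ u', u' ∉ D x y u → u' ≠ d → 0 < σ * orient (x d) (x u) (x u') := by
  obtain ⟨u, hub, hud, hV, hd1, hu1⟩ := step F N1 N2 hb1 hb2 hdV
  have hab : a ∈ D x y b := hb1 a (self_mem_D a)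
  have hua : u ≠ a := fun h => hub (h ▸ hab)
  have huDa : u ∉ D x y a := fun h => hub (hb1 u h)
  have hadu : 0 < σ * orient (x a) (x d) (x u) := hedge u hua hud
  -- step (1)
  have h1 : a ∈ D x y u ∧ d ∉ D x y u := by
    rcases hu1 with h | ⟨hau, -⟩
    · exact h
    exfalso
    obtain ⟨w, hwu, hwa, hVu, ha1, -⟩ := step F N1 N2 (b := u) (s := u) (fun z hz => hz) hau haV
    have hwDa : w ∈ D x y a := by
      rcases ha1 with ⟨h, -⟩ | ⟨-, h⟩
      · exact absurd h huDa
      · exact h
    have hauw := suffix F hedge hd huDa hud hwDa hwa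
    obtain ⟨z, hz1, hz2⟩ := N1 b u
    have hza : z ≠ a := fun h => hz1 (h ▸ hab)
    have hzu : z ≠ u := ne_of_nm hz2
    have i1 := ((aff_orient (x a) (x u)).smul σ).le F (T := Tc x y b a) (r := 0) (fun q hq => ?_)
      (j := z) (mem_Tc.2 (Or.inr hz1))
    · have i2 := ((aff_orient (x a) (x u)).smul (-σ)).le F (T := Tc x y u u) (r := 0) (fun q hq => ?_)
        (j := z) (mem_Tc.2 (Or.inr hz2))
      · have i3 : σ * orient (x a) (x u) (x z) = 0 := by linarith
        rcases mul_eq_zero.1 i3 with h | h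
        · exact hσ h
        · exact O_ne F (Ne.symm hua) (Ne.symm hza) (Ne.symm hzu) h
      · rw [hVu, mem_insert, mem_insert, mem_singleton] at hq
        rcases hq with rfl | rfl | rfl
        · rw [orient_self_right, mul_zero]
        · rw [orient_self_left, mul_zero]
        · linarith
    · rw [hV, mem_insert, mem_insert, mem_singleton] at hq
      rcases hq with rfl | rfl | rfl
      · rw [orient_self_left, mul_zero]
      · have : orient (x a) (x u) (x q) = - orient (x a) (x q) (x u) := by unfold orient; ring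
        rw [this]
        linarith
      · rw [orient_self_right, mul_zero]
  obtain ⟨hau, hdu⟩ := h1
  -- step (2)
  obtain ⟨w, hwu, hwd, hVu, hd2, -⟩ := step F N1 N2 (b := u) (s := u) (fun z hz => hz) hdu hdV
  have hwa : w ≠ a := fun h => hwu (h ▸ hau)
  have hwu' : w ≠ u := ne_of_nm hwu
  have hadw : 0 < σ * orient (x a) (x d) (x w) := hedge w hwa hwd
  have hduw : 0 < σ * orient (x d) (x u) (x w) := by
    have e : orient (x d) (y d) (x a) * (σ * orient (x d) (x u) (x w)) =
        orient (x d) (y d) (x w) * (σ * orient (x a) (x d) (x u)) -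
          orient (x d) (y d) (x u) * (σ * orient (x a) (x d) (x w)) := by
      unfold orient
      ring
    rcases hd1 with ⟨ha, hu⟩ | ⟨ha, hu⟩
    · have hw : w ∈ D x y d := by
        rcases hd2 with ⟨h, -⟩ | ⟨-, h⟩
        · exact absurd h hu
        · exact h
      have g1 := pos_of_mem_D F had ha
      have g2 := (not_mem_D F).1 hu
      have g3 := pos_of_mem_D F hwd hw
      have m1 := mul_pos g3 hadu
      have m2 := mul_neg_of_neg_of_pos g2 hadw
      by_contra hcon
      have := mul_nonpos_of_nonneg_of_nonpos g1.le (not_lt.1 hcon)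
      linarith
    · have hw : w ∉ D x y d := by
        rcases hd2 with ⟨-, h⟩ | ⟨h, -⟩
        · exact h
        · exact absurd hu h
      have g1 := (not_mem_D F).1 ha
      have g2 := pos_of_mem_D F hud hu
      have g3 := (not_mem_D F).1 hw
      have m1 := mul_neg_of_neg_of_pos g3 hadu
      have m2 := mul_pos g2 hadw
      by_contra hcon
      have := mul_nonneg_of_nonpos_of_nonpos g1.le (not_lt.1 hcon)
      linarith
  have hsub : ∀ z, z ∈ D x y a → z ∈ D x y u := by
    intro z hz
    by_contra hzu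
    have hwDa : w ∈ D x y a := by
      by_contra hwDa
      have := (aff_orient (x a) (y a)).lt F (T := Tc x y u u) (r := 0) (fun q hq => ?_)
        (j := z) (mem_Tc.2 (Or.inr hzu))
      · exact absurd (mem_D.1 hz) (not_le.2 this)
      · rw [hVu, mem_insert, mem_insert, mem_singleton] at hq
        rcases hq with rfl | rfl | rfl
        · exact (not_mem_D F).1 huDa
        · exact (not_mem_D F).1 hd
        · exact (not_mem_D F).1 hwDa
    have hauw := suffix F hedge hd huDa hud hwDa hwa
    have g1 := pos_of_mem_D F (Ne.symm hua) hau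
    have g2 := (not_mem_D F).1 hdu
    have g3 := (not_mem_D F).1 hwu
    have e : orient (x u) (y u) (x w) * (σ * orient (x a) (x d) (x u)) =
        orient (x u) (y u) (x a) * (σ * orient (x d) (x u) (x w)) +
          (- orient (x u) (y u) (x d)) * (σ * orient (x a) (x u) (x w)) := by
      unfold orient
      ring
    have m1 := mul_pos g1 hduw
    have m2 := mul_pos (neg_pos.2 g2) hauw
    have m3 := mul_neg_of_neg_of_pos g3 hadu
    linarith
  refine ⟨u, hub, hua, hud, hsub, hdu, fun u' hu' hu'd => ?_⟩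
  have i1 := ((aff_orient (x d) (x u)).smul (-σ)).le F (T := Tc x y u u) (r := 0) (fun q hq => ?_)
      (j := u') (mem_Tc.2 (Or.inr hu'))
  · have hu'u : u' ≠ u := ne_of_nm hu'
    have i2 : σ * orient (x d) (x u) (x u') ≠ 0 :=
      mul_ne_zero hσ (O_ne F (Ne.symm hud) (Ne.symm hu'd) (Ne.symm hu'u))
    exact lt_of_le_of_ne (by linarith) (Ne.symm i2)
  · rw [hVu, mem_insert, mem_insert, mem_singleton] at hq
    rcases hq with rfl | rfl | rfl
    · rw [orient_self_right, mul_zero]
    · rw [orient_self_left, mul_zero]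
    · linarith

/-- the infinite descent around a hull edge -/
theorem no_edge (F : Flg P x y) (N1 : ∀ b c, ∃ z, z ∉ D x y b ∧ z ∉ D x y c)
    (N2 : ∀ b T, (∀ z, z ∉ D x y b → z ∈ T) → (V x T).card + (Sf x y T).card ≤ 4)
    {σ : ℝ} (hσ : σ ≠ 0) {a d : Fin N} (had : a ≠ d) (haV : a ∈ V x univ) (hdV : d ∈ V x univ)
    (hedge : ∀ z, z ≠ a → z ≠ d → 0 < σ * orient (x a) (x d) (x z)) (hd : d ∉ D x y a) : False := by
  set Sg : Finset (Fin N) := univ.filter (fun u => u ≠ a ∧ u ≠ d ∧ (∀ z, z ∈ D x y a → z ∈ D x y u) ∧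
    d ∉ D x y u ∧ ∀ u', u' ∉ D x y u → u' ≠ d → 0 < σ * orient (x d) (x u) (x u')) with hS
  have hne : Sg.Nonempty := by
    obtain ⟨u, -, h⟩ := next F N1 N2 hσ had haV hdV hedge hd (fun z hz => hz) hd
    exact ⟨u, mem_filter.2 ⟨mem_univ _, h⟩⟩
  set f : Fin N → ℝ := fun z => ((x z 0 - x d 0) * (x a 0 - x d 0) + (x z 1 - x d 1) * (x a 1 - x d 1)) /
    (σ * orient (x a) (x d) (x z)) with hf
  obtain ⟨u, hu, hmax⟩ := Sg.exists_max_image f hne
  obtain ⟨hua, hud, hsub, hdu, hnext⟩ := (mem_filter.1 hu).2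
  obtain ⟨v, hvu, hv⟩ := next F N1 N2 hσ had haV hdV hedge hd hsub hdu
  have hva := hv.1
  have hvd := hv.2.1
  have h1 := hmax v (mem_filter.2 ⟨mem_univ _, hv⟩)
  have h2 := hnext v hvu hvd
  have ou := hedge u hua hud
  have ov := hedge v hva hvd
  rw [hf] at h1
  dsimp only at h1
  rw [div_le_div_iff₀ ov ou] at h1
  have e : ((x a 0 - x d 0) * (x a 0 - x d 0) + (x a 1 - x d 1) * (x a 1 - x d 1)) *
      (σ * orient (x d) (x u) (x v)) =
      ((x v 0 - x d 0) * (x a 0 - x d 0) + (x v 1 - x d 1) * (x a 1 - x d 1)) *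
        (σ * orient (x a) (x d) (x u)) -
      ((x u 0 - x d 0) * (x a 0 - x d 0) + (x u 1 - x d 1) * (x a 1 - x d 1)) *
        (σ * orient (x a) (x d) (x v)) := by
    unfold orient
    ring
  have hpos : 0 < (x a 0 - x d 0) * (x a 0 - x d 0) + (x a 1 - x d 1) * (x a 1 - x d 1) := by
    rcases lt_or_eq_of_le (add_nonneg (mul_self_nonneg (x a 0 - x d 0))
      (mul_self_nonneg (x a 1 - x d 1))) with h | h
    · exact h
    · exfalso
      apply F.xx a d had
      have h3 : x a 0 - x d 0 = 0 := by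
        nlinarith [mul_self_nonneg (x a 0 - x d 0), mul_self_nonneg (x a 1 - x d 1)]
      have h4 : x a 1 - x d 1 = 0 := by
        nlinarith [mul_self_nonneg (x a 0 - x d 0), mul_self_nonneg (x a 1 - x d 1)]
      ext i
      fin_cases i
      · show x a 0 = x d 0
        linarith
      · show x a 1 = x d 1
        linarith
  have := mul_pos hpos h2
  linarith

/-- a hull edge at every hull vertex: if both neighbours are in the half plane then all flags are -/
theorem exists_edge (F : Flg P x y) (hN : ∃ a b : Fin N, a ≠ b) {a : Fin N} (ha : a ∈ V x univ)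
    (hD : ∃ z, z ∉ D x y a) : ∃ (σ : ℝ) (d : Fin N), σ ≠ 0 ∧ a ≠ d ∧ d ∈ V x univ ∧ d ∉ D x y a ∧
      ∀ z, z ≠ a → z ≠ d → 0 < σ * orient (x a) (x d) (x z) := by
  have hcard : 2 ≤ ((univ : Finset (Fin N)).image x).card := by
    obtain ⟨a, b, hab⟩ := hN
    have : ({x a, x b} : Finset E2) ⊆ univ.image x := by
      intro q hq
      rw [mem_insert, mem_singleton] at hq
      rcases hq with rfl | rfl
      · exact mem_image.2 ⟨a, mem_univ _, rfl⟩
      · exact mem_image.2 ⟨b, mem_univ _, rfl⟩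
    have h1 := card_le_card this
    rwa [card_pair (F.xx a b hab)] at h1
  have hgp : GenPos ((univ : Finset (Fin N)).image x) := gen_mono (image_subset F univ) F.hP
  obtain ⟨p, hp⟩ := ECG.exists_out hgp (mem_V.1 ha).2 hcard
  obtain ⟨q, hq⟩ := ECG.exists_in hgp (mem_V.1 ha).2 hcard
  obtain ⟨p1, p2, p3, p4⟩ := ECG.mem_Ed.1 hp
  obtain ⟨q1, q2, q3, q4⟩ := ECG.mem_Ed.1 hq
  obtain ⟨d, -, rfl⟩ := mem_image.1 p2
  obtain ⟨e, -, rfl⟩ := mem_image.1 q1
  have had : a ≠ d := fun h => p3 (by rw [h])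
  have hea : e ≠ a := fun h => q3 (by rw [h])
  have p5 : ∀ z, z ≠ a → z ≠ d → 0 < orient (x a) (x d) (x z) := fun z h1 h2 =>
    p4 (x z) (mem_image.2 ⟨z, mem_univ _, rfl⟩) (F.xx _ _ h1) (F.xx _ _ h2)
  have q5 : ∀ z, z ≠ e → z ≠ a → 0 < orient (x e) (x a) (x z) := fun z h1 h2 =>
    q4 (x z) (mem_image.2 ⟨z, mem_univ _, rfl⟩) (F.xx _ _ h1) (F.xx _ _ h2)
  by_cases hd : d ∈ D x y a
  · by_cases he : e ∈ D x y a
    · exfalso
      obtain ⟨z, hz⟩ := hD
      have hza : z ≠ a := ne_of_nm hz
      have hzd : z ≠ d := fun h => hz (h ▸ hd)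
      have hze : z ≠ e := fun h => hz (h ▸ he)
      have o1 := p5 z hza hzd
      have o2 := q5 z hze hza
      by_cases hde : d = e
      · subst hde
        rw [orient_swap] at o2
        linarith
      · have o3 := p5 e hea (Ne.symm hde)
        have g1 := pos_of_mem_D F (Ne.symm had) hd
        have g2 := pos_of_mem_D F hea he
        have g3 := (not_mem_D F).1 hz
        have c := cramer (x a) (y a) (x d) (x z) (x e)
        have e1 : orient (x a) (x z) (x e) = orient (x e) (x a) (x z) := by unfold orient; ring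
        rw [e1] at c
        have m1 := mul_neg_of_neg_of_pos g3 o3
        have m2 := mul_pos g1 o2
        have m3 := mul_pos g2 o1
        linarith
    · refine ⟨-1, e, by norm_num, hea.symm, mem_V.2 ⟨mem_univ _, ECG.ext_of_Ed_left hq⟩, he,
        fun z h1 h2 => ?_⟩
      have := q5 z h2 h1
      rw [orient_swap] at this
      linarith
  · refine ⟨1, d, one_ne_zero, had, mem_V.2 ⟨mem_univ _, ECG.ext_of_Ed_right hp⟩, hd,
      fun z h1 h2 => ?_⟩
    rw [one_mul]
    exact p5 z h1 h2

/-- **the cover theorem for `k = 5`** -/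
theorem cover_five (F : Flg P x y) (hN : 0 < N) :
    (∃ b c, ∀ z, z ∈ D x y b ∨ z ∈ D x y c) ∨
      ∃ b T, (∀ z, z ∉ D x y b → z ∈ T) ∧ 5 ≤ (V x T).card + (Sf x y T).card := by
  by_contra hcon
  rw [not_or] at hcon
  obtain ⟨c1, c2⟩ := hcon
  push Not at c1 c2
  have N2 : ∀ b T, (∀ z, z ∉ D x y b → z ∈ T) → (V x T).card + (Sf x y T).card ≤ 4 :=
    fun b T h => Nat.lt_succ_iff.1 (c2 b T h)
  obtain ⟨a, ha, -⟩ := exists_max F (T := univ) ⟨⟨0, hN⟩, mem_univ _⟩ 1 0
  obtain ⟨z, hz, -⟩ := c1 a a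
  obtain ⟨σ, d, hσ, had, hdV, hd, hedge⟩ := exists_edge F ⟨z, a, ne_of_nm hz⟩ ha ⟨z, hz⟩
  exact no_edge F c1 N2 hσ had ha hdV hedge hd

/-- the statement about flags for `k = 5` -/
theorem cluster_five : ClusterStmt 5 := by
  intro N P x y F w hw hD hT
  have e5 : (((5 : ℕ) : ℝ) - 1) / 2 = 2 := by norm_num
  rw [e5]
  rcases Nat.eq_zero_or_pos N with h0 | hN
  · subst h0
    norm_num
  rcases cover_five F hN with ⟨b, c, h⟩ | ⟨b, T, h, hv⟩
  · have h1 : N ≤ (D x y b).card + (D x y c).card := by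
      have h2 : (univ : Finset (Fin N)) ⊆ D x y b ∪ D x y c := by
        intro z _
        rw [mem_union]
        exact h z
      have h3 := (card_le_card h2).trans (card_union_le _ _)
      rwa [card_univ, Fintype.card_fin] at h3
    have h4 : (N : ℝ) ≤ (D x y b).card + (D x y c).card := by exact_mod_cast h1
    have h5 := hD b
    have h6 := hD c
    have h7 := mul_le_mul_of_nonneg_right h4 hw
    linarith
  · have h1 : N ≤ (D x y b).card + T.card := by
      have h2 : (univ : Finset (Fin N)) ⊆ D x y b ∪ T := by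
        intro z _
        rw [mem_union]
        by_cases hz : z ∈ D x y b
        · exact Or.inl hz
        · exact Or.inr (h z hz)
      have h3 := (card_le_card h2).trans (card_union_le _ _)
      rwa [card_univ, Fintype.card_fin] at h3
    have h4 : (N : ℝ) ≤ (D x y b).card + T.card := by exact_mod_cast h1
    have h5 := hD b
    have h6 := hT T (hv.trans (val_le F T))
    have h7 := mul_le_mul_of_nonneg_right h4 hw
    linarith

/-- the upper bound for `k = 5` -/
theorem final_five : FinalStmt 5 := final_of_cluster (by norm_num) cluster_five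

end Pool.Agent.Lib.EcV
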