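import Pool.Agent.Lib.EcV.Val

/-!
# EcV.Four: the statement about flags for `k = 3` and `k = 4`

Heavy sets of flags (weight more than one). For `k = 4` every heavy set has exactly three vertices and no
self flag, so the half plane of a vertex contains exactly one of the two other vertices. Peeling the three
corners of the whole set gives three light complements; they cover everything twice, because a common
point of two peels contradicts parity.
-/

set_option autoImplicit false

namespace Pool.Agent.Lib.EcV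

open Finset Classical Pool.Agent.Lib.Pec6744 Pool.Agent.Lib.EcR Pool.Agent.Lib.EcW

variable {N : ℕ} {P : Finset E2} {x y : Fin N → E2} {w : ℝ}

/-- heavy sets of flags: weight more than one -/
def Heavy (w : ℝ) (T : Finset (Fin N)) : Prop := 1 < (T.card : ℝ) * w

theorem Heavy.mono (hw : 0 ≤ w) {T T' : Finset (Fin N)} (h : T ⊆ T') (hT : Heavy w T) :
    Heavy w T' := by
  unfold Heavy at *
  have h1 : (T.card : ℝ) ≤ T'.card := by exact_mod_cast card_le_card h
  exact hT.trans_le (mul_le_mul_of_nonneg_right h1 hw)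

theorem not_heavy {T : Finset (Fin N)} : ¬ Heavy w T ↔ (T.card : ℝ) * w ≤ 1 := not_lt

theorem Heavy.nonempty {T : Finset (Fin N)} (hT : Heavy w T) : T.Nonempty := by
  rcases T.eq_empty_or_nonempty with rfl | h
  · unfold Heavy at hT
    rw [card_empty, Nat.cast_zero, zero_mul] at hT
    linarith
  · exact h

/-- a heavy set is not contained in the half plane of a flag -/
theorem Heavy.not_subset_D (hw : 0 ≤ w) (hD : ∀ i, ((D x y i).card : ℝ) * w ≤ 1)
    {T : Finset (Fin N)} (hT : Heavy w T) (i : Fin N) : ¬ T ⊆ D x y i :=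
  fun h => not_heavy.2 (hD i) (hT.mono hw h)

theorem Heavy.exists_notMem (hw : 0 ≤ w) (hD : ∀ i, ((D x y i).card : ℝ) * w ≤ 1)
    {T : Finset (Fin N)} (hT : Heavy w T) (i : Fin N) : ∃ j ∈ T, j ∉ D x y i := by
  have := hT.not_subset_D hw hD i
  rwa [not_subset] at this

/-- if all vertices of `T` lie in the half plane of `i` then so does `T` -/
theorem subset_D_of_V (F : Flg P x y) {T : Finset (Fin N)} {i : Fin N}
    (h : ∀ v ∈ V x T, v ∈ D x y i) : T ⊆ D x y i := by
  intro j hj
  rw [mem_D]
  have := (aff_orient (x i) (y i)).neg.le F (r := 0)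
    (fun v hv => by have := mem_D.1 (h v hv); linarith) hj
  linarith

/-- a vertex is self if its half plane contains no other vertex -/
theorem mem_Sf_of_V (F : Flg P x y) {T : Finset (Fin N)} {i : Fin N} (hi : i ∈ T)
    (h : ∀ v ∈ V x T, v ≠ i → v ∉ D x y i) : i ∈ Sf x y T := by
  refine mem_Sf.2 ⟨hi, fun j hj hji => lt_of_le_of_ne ?_ (g_ne F hji)⟩
  refine (aff_orient (x i) (y i)).le F (r := 0) (fun v hv => ?_) hj
  by_cases hvi : v = i
  · rw [hvi, orient_self_left]
  · exact ((not_mem_D F).1 (h v hv hvi)).le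

/-- a heavy set has a value less than `k` -/
theorem Heavy.val_lt (F : Flg P x y) {k : ℕ}
    (hk : ∀ T : Finset (Fin N), k ≤ (extPts (U x y T)).ncard → (T.card : ℝ) * w ≤ 1)
    {T : Finset (Fin N)} (hT : Heavy w T) : (V x T).card + (Sf x y T).card < k := by
  by_contra h
  exact not_heavy.2 (hk T ((not_lt.1 h).trans (val_le F T))) hT

/-- a heavy set has at least three flags if `k ≤ 4` -/
theorem Heavy.three_le (F : Flg P x y) (hw : 0 ≤ w) (hD : ∀ i, ((D x y i).card : ℝ) * w ≤ 1)
    (hk : ∀ T : Finset (Fin N), 4 ≤ (extPts (U x y T)).ncard → (T.card : ℝ) * w ≤ 1)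
    {T : Finset (Fin N)} (hT : Heavy w T) : 3 ≤ T.card := by
  by_contra hc
  have hc : T.card ≤ 2 := by omega
  have hval := hT.val_lt F hk
  -- all elements are self
  have hS : T ⊆ Sf x y T := by
    intro i hi
    refine mem_Sf.2 ⟨hi, fun j hj hji => ?_⟩
    obtain ⟨l, hl, hlD⟩ := hT.exists_notMem hw hD i
    have hli : l ≠ i := by
      rintro rfl
      exact hlD (self_mem_D l)
    have hjl : j = l := by
      by_contra hne
      have h3 : ({i, j, l} : Finset (Fin N)) ⊆ T := by
        intro q hq
        simp only [mem_insert, mem_singleton] at hq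
        rcases hq with rfl | rfl | rfl
        · exact hi
        · exact hj
        · exact hl
      have h4 := card_le_card h3
      rw [card_eq_three.2 ⟨i, j, l, hji.symm, hli.symm, hne, rfl⟩] at h4
      omega
    rw [hjl]
    exact (not_mem_D F).1 hlD
  have h1 := card_le_card hS
  have h2 := card_le_card (Sf_subset_V F T)
  have h3 : 2 ≤ T.card := by
    by_contra h
    obtain ⟨a, ha⟩ := hT.nonempty
    obtain ⟨b, hb⟩ := card_eq_one.1 (show T.card = 1 by have := card_pos.2 ⟨a, ha⟩; omega)
    have h5 : T = {a} := by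
      rw [hb] at ha ⊢
      rw [mem_singleton.1 ha]
    exact hT.not_subset_D hw hD a (by rw [h5, singleton_subset_iff]; exact self_mem_D a)
  omega

/-- a heavy set is a triangle without self flags if `k = 4` -/
theorem Heavy.tri (F : Flg P x y) (hw : 0 ≤ w) (hD : ∀ i, ((D x y i).card : ℝ) * w ≤ 1)
    (hk : ∀ T : Finset (Fin N), 4 ≤ (extPts (U x y T)).ncard → (T.card : ℝ) * w ≤ 1)
    {T : Finset (Fin N)} (hT : Heavy w T) : (V x T).card = 3 ∧ Sf x y T = ∅ := by
  have h1 := three_le_V F (hT.three_le F hw hD hk)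
  have h2 := hT.val_lt F hk
  refine ⟨by omega, card_eq_zero.1 (by omega)⟩

/-- the half plane of a vertex contains exactly one of the two others -/
theorem Heavy.xor (F : Flg P x y) (hw : 0 ≤ w) (hD : ∀ i, ((D x y i).card : ℝ) * w ≤ 1)
    (hk : ∀ T : Finset (Fin N), 4 ≤ (extPts (U x y T)).ncard → (T.card : ℝ) * w ≤ 1)
    {T : Finset (Fin N)} (hT : Heavy w T) {p q r : Fin N} (hV : V x T = {p, q, r}) :
    q ∈ D x y p ↔ r ∉ D x y p := by
  constructor
  · intro hq hr
    refine hT.not_subset_D hw hD p (subset_D_of_V F fun v hv => ?_)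
    rw [hV, mem_insert, mem_insert, mem_singleton] at hv
    rcases hv with rfl | rfl | rfl
    · exact self_mem_D v
    · exact hq
    · exact hr
  · intro hr
    by_contra hq
    have hp : p ∈ Sf x y T := by
      refine mem_Sf_of_V F (V_subset T (by rw [hV]; exact mem_insert_self _ _)) fun v hv hvp => ?_
      rw [hV, mem_insert, mem_insert, mem_singleton] at hv
      rcases hv with rfl | rfl | rfl
      · exact absurd rfl hvp
      · exact hq
      · exact hr
    rw [(hT.tri F hw hD hk).2] at hp
    exact notMem_empty _ hp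

/-- peeling the corner `p` -/
theorem Heavy.peel (F : Flg P x y) (hw : 0 ≤ w) (hD : ∀ i, ((D x y i).card : ℝ) * w ≤ 1)
    (hk : ∀ T : Finset (Fin N), 4 ≤ (extPts (U x y T)).ncard → (T.card : ℝ) * w ≤ 1) (q r : Fin N)
    (hqr : q ≠ r) : ∀ (n : ℕ) (T : Finset (Fin N)), T.card = n → Heavy w T → ∀ p, p ≠ q → p ≠ r →
      V x T = {p, q, r} → ∃ A ⊆ T, ¬ Heavy w (T \ A) ∧
        ∀ z ∈ A, ∃ T' : Finset (Fin N), Heavy w T' ∧ V x T' = {z, q, r} := by
  intro n
  induction n using Nat.strong_induction_on with
  | _ n ih =>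
  intro T hTn hT p hpq hpr hV
  have hpT : p ∈ T := V_subset T (by rw [hV]; exact mem_insert_self _ _)
  have hq : q ∈ V x T := by rw [hV]; simp
  have hr : r ∈ V x T := by rw [hV]; simp
  by_cases hT' : Heavy w (T.erase p)
  · have hqT' : q ∈ V x (T.erase p) :=
      V_mono (erase_subset _ _) hq (mem_erase.2 ⟨hpq.symm, V_subset T hq⟩)
    have hrT' : r ∈ V x (T.erase p) :=
      V_mono (erase_subset _ _) hr (mem_erase.2 ⟨hpr.symm, V_subset T hr⟩)
    obtain ⟨hc, -⟩ := hT'.tri F hw hD hk
    have h1 : ((V x (T.erase p)) \ {q, r}).card = 1 := by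
      have hsub : ({q, r} : Finset (Fin N)) ⊆ V x (T.erase p) := by
        intro s hs
        rw [mem_insert, mem_singleton] at hs
        rcases hs with rfl | rfl
        · exact hqT'
        · exact hrT'
      rw [card_sdiff_of_subset hsub, hc, card_pair hqr]
    obtain ⟨p', hp'⟩ := card_eq_one.1 h1
    have hp'm : p' ∈ (V x (T.erase p)) \ {q, r} := by rw [hp']; exact mem_singleton_self _
    obtain ⟨hp'1, hp'2⟩ := mem_sdiff.1 hp'm
    rw [mem_insert, mem_singleton, not_or] at hp'2
    have hV' : V x (T.erase p) = {p', q, r} := by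
      symm
      apply eq_of_subset_of_card_le
      · intro s hs
        simp only [mem_insert, mem_singleton] at hs
        rcases hs with rfl | rfl | rfl
        · exact hp'1
        · exact hqT'
        · exact hrT'
      · rw [hc, card_eq_three.2 ⟨p', q, r, hp'2.1, hp'2.2, hqr, rfl⟩]
    obtain ⟨A, hA, hAl, hAz⟩ := ih (T.erase p).card
      (by rw [card_erase_of_mem hpT]; have := card_pos.2 ⟨p, hpT⟩; omega) _ rfl hT' p' hp'2.1
      hp'2.2 hV'
    refine ⟨insert p A, ?_, ?_, ?_⟩
    · intro s hs
      rcases mem_insert.1 hs with rfl | hs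
      · exact hpT
      · exact erase_subset _ _ (hA hs)
    · have e : T \ insert p A = T.erase p \ A := by
        ext s
        simp only [mem_sdiff, mem_insert, mem_erase, not_or]
        tauto
      rw [e]
      exact hAl
    · intro z hz
      rcases mem_insert.1 hz with rfl | hz
      · exact ⟨T, hT, hV⟩
      · exact hAz z hz
  · refine ⟨{p}, by rw [singleton_subset_iff]; exact hpT, ?_, ?_⟩
    · rw [sdiff_singleton_eq_erase]
      exact hT'
    · intro z hz
      rw [mem_singleton.1 hz]
      exact ⟨T, hT, hV⟩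

/-- the peels of two corners are disjoint -/
theorem peel_disj (F : Flg P x y) (hw : 0 ≤ w) (hD : ∀ i, ((D x y i).card : ℝ) * w ≤ 1)
    (hk : ∀ T : Finset (Fin N), 4 ≤ (extPts (U x y T)).ncard → (T.card : ℝ) * w ≤ 1)
    {S A B : Finset (Fin N)} {a b c : Fin N} (hS : Heavy w S) (hV : V x S = {a, b, c})
    (hA : ∀ z ∈ A, ∃ T' : Finset (Fin N), Heavy w T' ∧ V x T' = {z, b, c})
    (hB : ∀ z ∈ B, ∃ T' : Finset (Fin N), Heavy w T' ∧ V x T' = {z, a, c}) : Disjoint A B := by
  rw [disjoint_left]
  intro z hzA hzB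
  obtain ⟨T1, h1, e1⟩ := hA z hzA
  obtain ⟨T2, h2, e2⟩ := hB z hzB
  have r1 : V x T1 = {c, z, b} := by rw [e1]; ext s; simp only [mem_insert, mem_singleton]; tauto
  have r2 : V x T2 = {c, a, z} := by rw [e2]; ext s; simp only [mem_insert, mem_singleton]; tauto
  have r3 : V x S = {c, a, b} := by rw [hV]; ext s; simp only [mem_insert, mem_singleton]; tauto
  have x1 := h1.xor F hw hD hk r1
  have x2 := h2.xor F hw hD hk r2
  have x3 := hS.xor F hw hD hk r3
  tauto

/-- the statement about flags for `k = 4` -/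
theorem cluster_four : ClusterStmt 4 := by
  intro N P x y F w hw hD hk
  by_contra hcon
  have hcon := not_le.1 hcon
  norm_num at hcon
  have hS : Heavy w (univ : Finset (Fin N)) := by
    unfold Heavy
    rw [card_univ, Fintype.card_fin]
    linarith
  obtain ⟨hc, -⟩ := hS.tri F hw hD hk
  obtain ⟨a, b, c, hab, hac, hbc, hV⟩ := card_eq_three.1 hc
  obtain ⟨A, -, hA1, hA2⟩ := Heavy.peel F hw hD hk b c hbc _ _ rfl hS a hab hac hV
  have hVb : V x (univ : Finset (Fin N)) = {b, a, c} := by
    rw [hV]; ext s; simp only [mem_insert, mem_singleton]; tauto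
  have hVc : V x (univ : Finset (Fin N)) = {c, a, b} := by
    rw [hV]; ext s; simp only [mem_insert, mem_singleton]; tauto
  obtain ⟨B, -, hB1, hB2⟩ := Heavy.peel F hw hD hk a c hac _ _ rfl hS b hab.symm hbc hVb
  obtain ⟨C, -, hC1, hC2⟩ := Heavy.peel F hw hD hk a b hab _ _ rfl hS c hac.symm hbc.symm hVc
  have dAB : Disjoint A B := peel_disj F hw hD hk hS hV hA2 hB2
  have dAC : Disjoint A C := by
    have hV' : V x (univ : Finset (Fin N)) = {a, c, b} := by
      rw [hV]; ext s; simp only [mem_insert, mem_singleton]; tauto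
    refine peel_disj F hw hD hk hS hV' (fun z hz => ?_) hC2
    obtain ⟨T', h1, h2⟩ := hA2 z hz
    exact ⟨T', h1, by rw [h2]; ext s; simp only [mem_insert, mem_singleton]; tauto⟩
  have dBC : Disjoint B C := by
    have hV' : V x (univ : Finset (Fin N)) = {b, c, a} := by
      rw [hV]; ext s; simp only [mem_insert, mem_singleton]; tauto
    refine peel_disj F hw hD hk hS hV' (fun z hz => ?_) (fun z hz => ?_)
    · obtain ⟨T', h1, h2⟩ := hB2 z hz
      exact ⟨T', h1, by rw [h2]; ext s; simp only [mem_insert, mem_singleton]; tauto⟩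
    · obtain ⟨T', h1, h2⟩ := hC2 z hz
      exact ⟨T', h1, by rw [h2]; ext s; simp only [mem_insert, mem_singleton]; tauto⟩
  have hsum : A.card + B.card + C.card ≤ N := by
    have h1 : (A ∪ B ∪ C).card = A.card + B.card + C.card := by
      rw [card_union_of_disjoint (disjoint_union_left.2 ⟨dAC, dBC⟩), card_union_of_disjoint dAB]
    have h2 := card_le_univ (A ∪ B ∪ C)
    rw [Fintype.card_fin] at h2
    omega
  have key : ∀ E : Finset (Fin N), ¬ Heavy w (univ \ E) → ((N : ℝ) - E.card) * w ≤ 1 := by
    intro E hE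
    have h1 := not_heavy.1 hE
    have h2 : (univ \ E).card + E.card = N := by
      rw [card_sdiff_add_card_eq_card (subset_univ E), card_univ, Fintype.card_fin]
    have h3 : (((univ \ E).card : ℕ) : ℝ) + E.card = N := by exact_mod_cast h2
    rwa [show (N : ℝ) - E.card = (univ \ E).card by linarith]
  have kA := key A hA1
  have kB := key B hB1
  have kC := key C hC1
  have hs : (A.card : ℝ) + B.card + C.card ≤ N := by exact_mod_cast hsum
  have h5 := mul_le_mul_of_nonneg_right hs hw
  nlinarith

/-- the statement about flags for `k = 3` -/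
theorem cluster_three : ClusterStmt 3 := by
  intro N P x y F w hw hD hk
  by_contra hcon
  have hcon := not_le.1 hcon
  norm_num at hcon
  have hS : Heavy w (univ : Finset (Fin N)) := by
    unfold Heavy
    rw [card_univ, Fintype.card_fin]
    linarith
  have h1 := hS.three_le F hw hD (fun T hT => hk T (by omega))
  have h2 := three_le_V F h1
  have h3 := hS.val_lt F hk
  omega

end Pool.Agent.Lib.EcV
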