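import Pool.Agent.Lib.EcW.Dbl
import Pool.Agent.Lib.EcW.GeoJ
import Pool.Agent.Lib.EcW.Limit
import Pool.Agent.Lib.EcR.Main

/-!
# EcV.Transfer: from polygons of flags to large planar sets, for every `k`

`ClusterStmt k` is a statement about finitely many flags in general position with equal weights. It implies
the upper bound `g(k,n) ≤ ((k-1)/2 + ε) n`.
-/

set_option autoImplicit false

namespace Pool.Agent.Lib.EcV

open Finset Classical Pool.Agent.Lib.Pec6744 Pool.Agent.Lib.EcR Pool.Agent.Lib.EcW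

/-- all points of the flags of `T` -/
noncomputable def U {ι : Type} (x y : ι → E2) (T : Finset ι) : Finset E2 := T.image x ∪ T.image y

/-- the flags on the closed left side of the flag `i` -/
noncomputable def D {N : ℕ} (x y : Fin N → E2) (i : Fin N) : Finset (Fin N) :=
  univ.filter (fun j => 0 ≤ orient (x i) (y i) (x j))

/-- the statement about flags: if the half planes of the flags and all sets of flags with at least `k`
hull vertices have weight at most one, then the total weight is at most `(k-1)/2` -/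
def ClusterStmt (k : ℕ) : Prop :=
  ∀ (N : ℕ) (P : Finset E2) (x y : Fin N → E2), Flg P x y → ∀ w : ℝ, 0 ≤ w →
    (∀ i, ((D x y i).card : ℝ) * w ≤ 1) →
    (∀ T : Finset (Fin N), k ≤ (extPts (U x y T)).ncard → (T.card : ℝ) * w ≤ 1) →
    (N : ℝ) * w ≤ ((k : ℝ) - 1) / 2

theorem mem_U {ι : Type} {x y : ι → E2} {T : Finset ι} {b : E2} :
    b ∈ U x y T ↔ ∃ j ∈ T, b = x j ∨ b = y j := by
  unfold U
  rw [mem_union, mem_image, mem_image]
  constructor
  · rintro (⟨j, hj, rfl⟩ | ⟨j, hj, rfl⟩)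
    · exact ⟨j, hj, Or.inl rfl⟩
    · exact ⟨j, hj, Or.inr rfl⟩
  · rintro ⟨j, hj, rfl | rfl⟩
    · exact Or.inl ⟨j, hj, rfl⟩
    · exact Or.inr ⟨j, hj, rfl⟩

theorem extPts_subset (T : Finset E2) : extPts T ⊆ (T : Set E2) := fun _ h => h.1

theorem ncard_extPts_le (T : Finset E2) : (extPts T).ncard ≤ T.card := by
  have := Set.ncard_le_ncard (extPts_subset T) T.finite_toSet
  rwa [Set.ncard_coe_finset] at this

theorem gen_mono {P P' : Finset E2} (h : P' ⊆ P) (hP : GenPos P) : GenPos P' :=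
  fun a ha b hb c hc => hP a (h ha) b (h hb) c (h hc)

theorem sum_biUnion_le {α β : Type} [DecidableEq β] (s : Finset α) (t : α → Finset β) (f : β → ℝ)
    (hf : ∀ b, 0 ≤ f b) : ∑ b ∈ s.biUnion t, f b ≤ ∑ a ∈ s, ∑ b ∈ t a, f b := by
  induction s using Finset.induction_on with
  | empty => simp
  | insert a s ha ih =>
    rw [Finset.biUnion_insert, Finset.sum_insert ha]
    have e := Finset.sum_union_inter (s₁ := t a) (s₂ := s.biUnion t) (f := f)
    have p := Finset.sum_nonneg (s := t a ∩ s.biUnion t) (f := f) (fun b _ => hf b)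
    linarith

/-- sets of flags with many hull vertices have weight at most `1 + k η` -/
theorem rich_light {P : Finset E2} (hP : GenPos P) {n N m : ℕ} {w0 : ℚ} {η : ℝ} {x y : Fin N → E2}
    {Co : Fin N → Finset E2} (h : Red P n N m w0 η x y Co) {k : ℕ} (hk : 2 ≤ k) (hkn : k ≤ n)
    (hno : NoBig P n k) (T : Finset (Fin N)) (hT : k ≤ (extPts (U x y T)).ncard) :
    (T.card : ℝ) * w0 ≤ 1 + k * η := by
  have hw0 : (0 : ℝ) ≤ w0 := by exact_mod_cast h.hw0.le
  have hUP : U x y T ⊆ P := by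
    intro b hb
    obtain ⟨j, -, rfl | rfl⟩ := mem_U.1 hb
    · exact h.sub j (h.hx j)
    · exact h.sub j (h.hy j)
  have hUc : 2 ≤ (U x y T).card := (hk.trans hT).trans (ncard_extPts_le _)
  rw [← ECG.Ed_card (gen_mono hUP hP) hUc] at hT
  obtain ⟨E', hE', hE'c⟩ := Finset.exists_subset_card_eq hT
  set v : Fin N → ℝ := fun i => if i ∈ T then (w0 : ℝ) else 0 with hv
  have hv0 : ∀ i, 0 ≤ v i := by
    intro i
    rw [hv]
    dsimp only
    split_ifs
    · exact hw0
    · exact le_rfl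
  have hv1 : ∀ i, v i ≤ (w0 : ℝ) := by
    intro i
    rw [hv]
    dsimp only
    split_ifs
    · exact le_rfl
    · exact hw0
  set F : Finset E2 := P.filter (fun p => ∀ e ∈ E', 0 ≤ orient e.1 e.2 p) with hF
  have hFP : F ⊆ P := Finset.filter_subset _ _
  -- the points of the flags are in `F`
  have hnn : ∀ e ∈ E', ∀ b ∈ U x y T, 0 ≤ orient e.1 e.2 b := by
    intro e he b hb
    obtain ⟨h1, h2, h3, h4⟩ := ECG.mem_Ed.1 (show (e.1, e.2) ∈ ECG.Ed (U x y T) from hE' he)
    by_cases h6 : b = e.1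
    · rw [h6, orient_self_left]
    by_cases h7 : b = e.2
    · rw [h7, orient_self_right]
    · exact (h4 b hb h6 h7).le
  have hUF : U x y T ⊆ F := fun b hb => Finset.mem_filter.2 ⟨hUP hb, fun e he => hnn e he b hb⟩
  -- the chosen edges are edges of `F`
  have hEF : E' ⊆ ECG.Ed F := by
    intro e he
    obtain ⟨h1, h2, h3, h4⟩ := ECG.mem_Ed.1 (show (e.1, e.2) ∈ ECG.Ed (U x y T) from hE' he)
    have : (e.1, e.2) ∈ ECG.Ed F := by
      refine ECG.mem_Ed.2 ⟨hUF h1, hUF h2, h3, fun c hc hc1 hc2 => ?_⟩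
      refine lt_of_le_of_ne ((Finset.mem_filter.1 hc).2 e he) (fun h0 => ?_)
      exact hP e.1 (hUP h1) e.2 (hUP h2) c (hFP hc) h3 (Ne.symm hc1) (Ne.symm hc2) h0.symm
    exact this
  have hFk : k ≤ (ECG.Ed F).card := by
    rw [← hE'c]
    exact Finset.card_le_card hEF
  -- the weight of `F`
  have hcut : ∀ e ∈ E', ∑ p ∈ P.filter (fun p => 0 < orient e.2 e.1 p), vh Co m v p ≤ η := by
    intro e he
    obtain ⟨h1, h2, h3, h4⟩ := ECG.mem_Ed.1 (show (e.1, e.2) ∈ ECG.Ed (U x y T) from hE' he)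
    have h5 := (abs_le.1 (h.trans v hv0 hv1 e.2 e.1 (Ne.symm h3))).2
    have h6 : ∑ i ∈ univ.filter (fun i => 0 < orient e.2 e.1 (x i)), v i = 0 := by
      apply Finset.sum_eq_zero
      intro i hi
      rw [hv]
      dsimp only
      rw [if_neg]
      intro hiT
      have h7 := hnn e he (x i) (mem_U.2 ⟨i, hiT, Or.inl rfl⟩)
      have h8 := (Finset.mem_filter.1 hi).2
      rw [orient_swap] at h8
      linarith
    rw [h6] at h5
    linarith
  have hvh0 := vh_nonneg Co m v hv0
  have hout : ∑ p ∈ P \ F, vh Co m v p ≤ k * η := by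
    have h1 : P \ F ⊆ E'.biUnion (fun e => P.filter (fun p => 0 < orient e.2 e.1 p)) := by
      intro p hp
      obtain ⟨hpP, hpF⟩ := Finset.mem_sdiff.1 hp
      have : ¬ ∀ e ∈ E', 0 ≤ orient e.1 e.2 p := fun hh => hpF (Finset.mem_filter.2 ⟨hpP, hh⟩)
      push Not at this
      obtain ⟨e, he, hneg⟩ := this
      refine Finset.mem_biUnion.2 ⟨e, he, Finset.mem_filter.2 ⟨hpP, ?_⟩⟩
      rw [orient_swap]
      linarith
    calc ∑ p ∈ P \ F, vh Co m v p
        ≤ ∑ p ∈ E'.biUnion (fun e => P.filter (fun p => 0 < orient e.2 e.1 p)), vh Co m v p :=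
          Finset.sum_le_sum_of_subset_of_nonneg h1 (fun p _ _ => hvh0 p)
      _ ≤ ∑ e ∈ E', ∑ p ∈ P.filter (fun p => 0 < orient e.2 e.1 p), vh Co m v p :=
          sum_biUnion_le _ _ _ hvh0
      _ ≤ ∑ e ∈ E', η := Finset.sum_le_sum hcut
      _ = k * η := by rw [Finset.sum_const, nsmul_eq_mul, hE'c]
  have htot : ∑ p ∈ P, vh Co m v p = (T.card : ℝ) * w0 := by
    rw [h.sum_vh v, hv]
    rw [Finset.sum_ite_mem, Finset.univ_inter, Finset.sum_const, nsmul_eq_mul]
  have hsd := Finset.sum_sdiff (f := fun p => vh Co m v p) hFP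
  by_contra hcon
  have hcon := not_le.1 hcon
  have hFw : 1 < ∑ p ∈ F, vh Co m v p := by linarith
  have hFn : n ≤ F.card := by
    by_contra hlt
    have := ECG.weight_lt' (P := P) (D := F) (n := n) (κ := 1) one_pos (w := fun p => vh Co m v p)
      (fun p _ => h.vh_mul_le v hv1 p) hFP (not_le.1 hlt)
    linarith
  obtain ⟨M, h1, h2, h3⟩ := ECG.shrink (gen_mono hFP hP) hkn (hk.trans hkn) hFk hFn
  exact absurd h3 (not_le.2 (hno M (h1.trans hFP) h2))

/-- **TRANSFER**: the upper bound for `k` from the statement about flags -/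
theorem final_of_cluster {k : ℕ} (hk : 3 ≤ k) (hC : ClusterStmt k) : FinalStmt k := by
  intro ε0 hε0
  set ε : ℝ := min ε0 1 with hε
  have hεp : 0 < ε := lt_min hε0 one_pos
  have hε1 : ε ≤ 1 := min_le_right _ _
  have hε2 : ε ≤ ε0 := min_le_left _ _
  have hkR : (3 : ℝ) ≤ k := by exact_mod_cast hk
  set η : ℝ := ε / (k * k) with hη
  have hηp : 0 < η := by positivity
  have hkη : k * η * k = ε := by
    rw [hη]
    field_simp
  obtain ⟨n1, hn1⟩ := red2 k hk ε η hεp hηp
  refine ⟨max n1 k, fun n hn P hP hcard hNo => ?_⟩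
  have hnn1 : n1 ≤ n := (le_max_left _ _).trans hn
  have hnk : k ≤ n := (le_max_right _ _).trans hn
  have hnR : (1 : ℝ) ≤ n := by
    have : 1 ≤ n := by omega
    exact_mod_cast this
  -- a subset of the right size
  set M : ℕ := ⌈(((k : ℝ) - 1) / 2 + ε) * n⌉₊ with hM
  have hMle : M ≤ P.card := by
    apply Nat.ceil_le.2
    refine le_trans ?_ hcard
    exact mul_le_mul_of_nonneg_right (by linarith) (by linarith)
  obtain ⟨P', hP'P, hP'c⟩ := Finset.exists_subset_card_eq hMle
  have hGP := gen_mono hP'P hP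
  have hNB : NoBig P' n k := fun T hT hc => hNo T (hT.trans hP'P) hc
  have hM1 : (((k : ℝ) - 1) / 2 + ε) * n ≤ P'.card := by
    rw [hP'c]
    exact Nat.le_ceil _
  have hM2 : (P'.card : ℝ) ≤ k * n := by
    rw [hP'c]
    have h1 : (M : ℝ) < (((k : ℝ) - 1) / 2 + ε) * n + 1 := by
      apply Nat.ceil_lt_add_one
      apply mul_nonneg _ (by linarith)
      linarith
    have h2 : (((k : ℝ) - 1) / 2 + ε) * n + 1 ≤ (((k : ℝ) - 1) / 2 + 1) * n + n := by
      have := mul_le_mul_of_nonneg_right hε1 (show (0 : ℝ) ≤ n by linarith)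
      nlinarith
    have h3 : (((k : ℝ) - 1) / 2 + 1) * n + n ≤ k * n := by
      have : (((k : ℝ) - 1) / 2 + 1) * n + n = (((k : ℝ) - 1) / 2 + 2) * n := by ring
      rw [this]
      exact mul_le_mul_of_nonneg_right (by linarith) (by linarith)
    linarith
  obtain ⟨N, m, w0, x, y, Co, hR, hs⟩ := hn1 n hnn1 P' hGP hNB hM1 hM2
  have hw0 : (0 : ℝ) ≤ w0 := by exact_mod_cast hR.hw0.le
  have ha : 0 < 1 + k * η := by positivity
  have h1 := hC N P' x y (flg_of_red hGP hR) (w0 / (1 + k * η)) (by positivity) ?_ ?_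
  · rw [mul_div_assoc', div_le_iff₀ ha] at h1
    have h2 : ((k : ℝ) - 1) / 2 * (1 + k * η) = (k - 1) / 2 + (k * η * k - k * η) / 2 := by ring
    rw [h2, hkη] at h1
    have h3 : 0 < k * η := by positivity
    linarith
  · intro i
    rw [mul_div_assoc', div_le_one ha]
    have h2 : ((D x y i).card : ℝ) * w0 ≤ 1 := by
      have := hR.light i
      exact_mod_cast this
    have h3 : 0 < k * η := by positivity
    linarith
  · intro T hT
    rw [mul_div_assoc', div_le_one ha]
    exact rich_light hGP hR (by omega) hnk hNB T hT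

end Pool.Agent.Lib.EcV
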