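import Pool.Agent.Lib.EcV.Transfer

/-!
# EcV.Val: hull vertices of sets of flags

`V x T`: the flags of `T` whose point `x` is a vertex of the hull of the points `x` of `T`.
`Sf x y T`: the self flags of `T`, all other flags of `T` are strictly on the right side.
`val_le`: the doubled set has at least `#V + #Sf` hull vertices.
`exists_max`: a linear functional has its maximum over `T` at a vertex.
-/

set_option autoImplicit false

namespace Pool.Agent.Lib.EcV

open Finset Classical Pool.Agent.Lib.Pec6744 Pool.Agent.Lib.EcR Pool.Agent.Lib.EcW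

variable {N : ℕ} {P : Finset E2} {x y : Fin N → E2}

/-- the hull vertices of `T` -/
noncomputable def V (x : Fin N → E2) (T : Finset (Fin N)) : Finset (Fin N) :=
  T.filter (fun a => x a ∈ extPts (T.image x))

/-- the self flags of `T` -/
noncomputable def Sf (x y : Fin N → E2) (T : Finset (Fin N)) : Finset (Fin N) :=
  T.filter (fun a => ∀ j ∈ T, j ≠ a → orient (x a) (y a) (x j) < 0)

theorem mem_V {T : Finset (Fin N)} {a : Fin N} : a ∈ V x T ↔ a ∈ T ∧ x a ∈ extPts (T.image x) := by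
  unfold V
  rw [mem_filter]

theorem mem_Sf {T : Finset (Fin N)} {a : Fin N} :
    a ∈ Sf x y T ↔ a ∈ T ∧ ∀ j ∈ T, j ≠ a → orient (x a) (y a) (x j) < 0 := by
  unfold Sf
  rw [mem_filter]

theorem mem_D {i j : Fin N} : j ∈ D x y i ↔ 0 ≤ orient (x i) (y i) (x j) := by
  unfold D
  rw [mem_filter]
  exact ⟨fun h => h.2, fun h => ⟨mem_univ _, h⟩⟩

theorem self_mem_D (i : Fin N) : i ∈ D x y i := by
  rw [mem_D, orient_self_left]

theorem V_subset (T : Finset (Fin N)) : V x T ⊆ T := filter_subset _ _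

theorem U_subset (F : Flg P x y) (T : Finset (Fin N)) : U x y T ⊆ P := by
  intro b hb
  obtain ⟨j, -, rfl | rfl⟩ := mem_U.1 hb
  · exact F.hx j
  · exact F.hy j

theorem g_ne (F : Flg P x y) {i j : Fin N} (hij : j ≠ i) : orient (x i) (y i) (x j) ≠ 0 :=
  F.hP _ (F.hx i) _ (F.hy i) _ (F.hx j) (F.xy i i) (F.xx i j hij.symm) (fun h => F.xy j i h.symm)

theorem not_mem_D (F : Flg P x y) {i j : Fin N} : j ∉ D x y i ↔ orient (x i) (y i) (x j) < 0 := by
  rw [mem_D, not_le]

theorem pos_of_mem_D (F : Flg P x y) {i j : Fin N} (hij : j ≠ i) (h : j ∈ D x y i) :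
    0 < orient (x i) (y i) (x j) :=
  lt_of_le_of_ne (mem_D.1 h) (Ne.symm (g_ne F hij))

theorem image_subset (F : Flg P x y) (T : Finset (Fin N)) : T.image x ⊆ P := by
  intro b hb
  obtain ⟨j, -, rfl⟩ := mem_image.1 hb
  exact F.hx j

theorem O_ne (F : Flg P x y) {i j l : Fin N} (hij : i ≠ j) (hil : i ≠ l) (hjl : j ≠ l) :
    orient (x i) (x j) (x l) ≠ 0 :=
  F.hP _ (F.hx i) _ (F.hx j) _ (F.hx l) (F.xx i j hij) (F.xx i l hil) (F.xx j l hjl)

theorem ext_of_top {T : Finset E2} {a : E2} (ha : a ∈ T) {t : ℝ} (h : Top T a t) : a ∈ extPts T :=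
  ECG.ext_of_dir ha (s := t) h

/-- a hull vertex of `T` gives a hull vertex of the doubled set -/
theorem ext_or (F : Flg P x y) {T : Finset (Fin N)} {a : Fin N} (ha : a ∈ V x T) :
    x a ∈ extPts (U x y T) ∨ y a ∈ extPts (U x y T) := by
  obtain ⟨haT, hext⟩ := mem_V.1 ha
  have h1 : x a ∉ convexHull ℝ (((T.image x).erase (x a) : Finset E2) : Set E2) := by
    rw [Finset.coe_erase]
    exact hext.2
  obtain ⟨ψ, hψ⟩ := exists_top h1
  obtain ⟨t, ht⟩ := F.single (Y := T) (Sg := T.erase a) (erase_subset _ _) (i := a)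
    (notMem_erase _ _) (ψ := ψ) (fun j hj hja => hψ (x j)
      (mem_erase.2 ⟨F.xx j a hja, mem_image.2 ⟨j, hj, rfl⟩⟩))
  have hlow : ∀ b ∈ U x y T, b ≠ x a → b ≠ y a → hh b t < hh (x a) t := by
    intro b hb hb1 hb2
    refine ht b (mem_dbl.2 ?_) hb1
    obtain ⟨j, hj, rfl | rfl⟩ := mem_U.1 hb
    · exact Or.inl ⟨j, hj, rfl⟩
    · exact Or.inr ⟨j, mem_erase.2 ⟨fun h => hb2 (by rw [h]), hj⟩, rfl⟩
  have hxU : x a ∈ U x y T := mem_U.2 ⟨a, haT, Or.inl rfl⟩
  have hyU : y a ∈ U x y T := mem_U.2 ⟨a, haT, Or.inr rfl⟩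
  rcases le_or_gt (hh (y a) t) (hh (x a) t) with h | h
  · left
    refine ECG.ext_of_weak (gen_mono (U_subset F T) F.hP) hxU (t := t) fun p hp => ?_
    show hh p t ≤ hh (x a) t
    by_cases h1 : p = x a
    · rw [h1]
    by_cases h2 : p = y a
    · rw [h2]; exact h
    · exact (hlow p hp h1 h2).le
  · right
    refine ECG.ext_of_weak (gen_mono (U_subset F T) F.hP) hyU (t := t) fun p hp => ?_
    show hh p t ≤ hh (y a) t
    by_cases h1 : p = x a
    · rw [h1]; exact h.le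
    by_cases h2 : p = y a
    · rw [h2]
    · exact ((hlow p hp h1 h2).trans h).le

/-- a self flag gives two hull vertices of the doubled set -/
theorem ext_and (F : Flg P x y) {T : Finset (Fin N)} {a : Fin N} (ha : a ∈ Sf x y T) :
    x a ∈ extPts (U x y T) ∧ y a ∈ extPts (U x y T) := by
  obtain ⟨haT, hs⟩ := mem_Sf.1 ha
  have hxU : x a ∈ U x y T := mem_U.2 ⟨a, haT, Or.inl rfl⟩
  have hyU : y a ∈ U x y T := mem_U.2 ⟨a, haT, Or.inr rfl⟩
  have hE : (y a, x a) ∈ ECG.Ed (U x y T) := by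
    refine ECG.mem_Ed.2 ⟨hyU, hxU, (F.xy a a).symm, fun c hc h1 h2 => ?_⟩
    obtain ⟨j, hj, hc'⟩ := mem_U.1 hc
    have hja : j ≠ a := by
      rintro rfl
      rcases hc' with rfl | rfl
      · exact h2 rfl
      · exact h1 rfl
    have h3 := hs j hj hja
    have h4 : orient (x a) (y a) (y j) < 0 := by
      rcases F.side2 a j hja.symm with h5 | h5
      · exact absurd h5.1 (not_lt.2 h3.le)
      · exact h5.2
    rw [orient_swap]
    rcases hc' with rfl | rfl
    · linarith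
    · linarith
  exact ⟨ECG.ext_of_Ed_right hE, ECG.ext_of_Ed_left hE⟩

/-- the value of a set of flags -/
theorem val_le (F : Flg P x y) (T : Finset (Fin N)) :
    (V x T).card + (Sf x y T).card ≤ (extPts (U x y T)).ncard := by
  set E : Finset E2 := (U x y T).filter (fun p => p ∈ extPts (U x y T)) with hE
  have hEc : (E : Set E2) = extPts (U x y T) := by
    ext p
    rw [hE, coe_filter]
    exact ⟨fun h => h.2, fun h => ⟨h.1, h⟩⟩
  rw [← hEc, Set.ncard_coe_finset]
  set c : Fin N → Finset E2 := fun a => E.filter (fun q => q = x a ∨ q = y a) with hc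
  have hdisj : ∀ a ∈ T, ∀ b ∈ T, a ≠ b → Disjoint (c a) (c b) := by
    intro a _ b _ hab
    rw [disjoint_left]
    intro q hq hq'
    obtain ⟨-, h1⟩ := mem_filter.1 hq
    obtain ⟨-, h2⟩ := mem_filter.1 hq'
    rcases h1 with rfl | rfl
    · rcases h2 with h2 | h2
      · exact F.xx a b hab h2
      · exact F.xy a b h2
    · rcases h2 with h2 | h2
      · exact F.xy b a h2.symm
      · exact F.yy a b hab h2
  have hsub : T.biUnion c ⊆ E := by
    intro q hq
    obtain ⟨a, _, h2⟩ := mem_biUnion.1 hq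
    exact (mem_filter.1 h2).1
  refine le_trans ?_ (card_le_card hsub)
  rw [card_biUnion hdisj]
  have hVc : (V x T).card = ∑ a ∈ T, if a ∈ V x T then 1 else 0 := by
    rw [← sum_filter, sum_const, smul_eq_mul, mul_one]
    congr 1
    ext a
    rw [mem_filter]
    exact ⟨fun h => ⟨V_subset T h, h⟩, fun h => h.2⟩
  have hSc : (Sf x y T).card = ∑ a ∈ T, if a ∈ Sf x y T then 1 else 0 := by
    rw [← sum_filter, sum_const, smul_eq_mul, mul_one]
    congr 1
    ext a
    rw [mem_filter]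
    exact ⟨fun h => ⟨(mem_Sf.1 h).1, h⟩, fun h => h.2⟩
  rw [hVc, hSc, ← sum_add_distrib]
  refine sum_le_sum fun a ha => ?_
  have hxU : x a ∈ U x y T := mem_U.2 ⟨a, ha, Or.inl rfl⟩
  have hyU : y a ∈ U x y T := mem_U.2 ⟨a, ha, Or.inr rfl⟩
  by_cases hs : a ∈ Sf x y T
  · obtain ⟨h1, h2⟩ := ext_and F hs
    have h3 : ({x a, y a} : Finset E2) ⊆ c a := by
      intro q hq
      rw [mem_insert, mem_singleton] at hq
      rcases hq with rfl | rfl
      · exact mem_filter.2 ⟨mem_filter.2 ⟨hxU, h1⟩, Or.inl rfl⟩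
      · exact mem_filter.2 ⟨mem_filter.2 ⟨hyU, h2⟩, Or.inr rfl⟩
    have h4 := card_le_card h3
    rw [card_pair (F.xy a a)] at h4
    rw [if_pos hs]
    split_ifs <;> omega
  · rw [if_neg hs, add_zero]
    by_cases hv : a ∈ V x T
    · rw [if_pos hv, Nat.one_le_iff_ne_zero, ← Nat.pos_iff_ne_zero, card_pos]
      rcases ext_or F hv with h1 | h1
      · exact ⟨x a, mem_filter.2 ⟨mem_filter.2 ⟨hxU, h1⟩, Or.inl rfl⟩⟩
      · exact ⟨y a, mem_filter.2 ⟨mem_filter.2 ⟨hyU, h1⟩, Or.inr rfl⟩⟩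
    · rw [if_neg hv]
      exact Nat.zero_le _

/-- a weak maximum of a linear functional is a hull vertex -/
theorem V_of_max (F : Flg P x y) {T : Finset (Fin N)} {a : Fin N} (ha : a ∈ T) {α β : ℝ}
    (hab : α ≠ 0 ∨ β ≠ 0)
    (h : ∀ j ∈ T, α * x j 0 + β * x j 1 ≤ α * x a 0 + β * x a 1) : a ∈ V x T := by
  obtain ⟨r, ψ, hr, hψ⟩ := exists_angle α β hab
  refine mem_V.2 ⟨ha, ECG.ext_of_weak (gen_mono (image_subset F T) F.hP) (mem_image.2 ⟨a, ha, rfl⟩)
    (t := ψ) fun p hp => ?_⟩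
  obtain ⟨j, hj, rfl⟩ := mem_image.1 hp
  show hh (x j) ψ ≤ hh (x a) ψ
  have h1 := h j hj
  have e1 := hψ (x j)
  have e2 := hψ (x a)
  have h2 : r * hh (x j) ψ ≤ r * hh (x a) ψ := by
    rw [← e1, ← e2]
    linarith
  exact le_of_mul_le_mul_left h2 hr

/-- a linear functional has its maximum at a hull vertex -/
theorem exists_max (F : Flg P x y) {T : Finset (Fin N)} (hT : T.Nonempty) (α β : ℝ) :
    ∃ v ∈ V x T, ∀ j ∈ T, α * x j 0 + β * x j 1 ≤ α * x v 0 + β * x v 1 := by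
  have key : ∀ α β : ℝ, α ≠ 0 ∨ β ≠ 0 →
      ∃ v ∈ V x T, ∀ j ∈ T, α * x j 0 + β * x j 1 ≤ α * x v 0 + β * x v 1 := by
    intro α β hab
    obtain ⟨v, hv, hmax⟩ := T.exists_max_image (fun j => α * x j 0 + β * x j 1) hT
    exact ⟨v, V_of_max F hv hab hmax, hmax⟩
  by_cases hab : α ≠ 0 ∨ β ≠ 0
  · exact key α β hab
  · push Not at hab
    obtain ⟨v, hv, -⟩ := key 1 0 (Or.inl one_ne_zero)
    refine ⟨v, hv, fun j _ => ?_⟩
    rw [hab.1, hab.2]
    linarith

/-- affine functions of a point -/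
def Aff (φ : E2 → ℝ) : Prop := ∃ α β c : ℝ, ∀ p, φ p = α * p 0 + β * p 1 + c

theorem aff_orient (a b : E2) : Aff (orient a b) :=
  ⟨-(b 1 - a 1), b 0 - a 0, -(b 0 - a 0) * a 1 + (b 1 - a 1) * a 0, fun p => by unfold orient; ring⟩

theorem Aff.neg {φ : E2 → ℝ} (h : Aff φ) : Aff (fun p => -φ p) := by
  obtain ⟨α, β, c, h⟩ := h
  exact ⟨-α, -β, -c, fun p => by show -φ p = _; rw [h]; ring⟩

theorem Aff.smul {φ : E2 → ℝ} (h : Aff φ) (r : ℝ) : Aff (fun p => r * φ p) := by
  obtain ⟨α, β, c, h⟩ := h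
  exact ⟨r * α, r * β, r * c, fun p => by show r * φ p = _; rw [h]; ring⟩

/-- an affine function has its maximum at a hull vertex -/
theorem Aff.max {φ : E2 → ℝ} (h : Aff φ) (F : Flg P x y) {T : Finset (Fin N)} (hT : T.Nonempty) :
    ∃ v ∈ V x T, ∀ j ∈ T, φ (x j) ≤ φ (x v) := by
  obtain ⟨α, β, c, h⟩ := h
  obtain ⟨v, hv, hm⟩ := exists_max F hT α β
  refine ⟨v, hv, fun j hj => ?_⟩
  rw [h, h]
  have := hm j hj
  linarith

/-- an affine function which is at most `r` at the vertices is at most `r` -/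
theorem Aff.le {φ : E2 → ℝ} (h : Aff φ) (F : Flg P x y) {T : Finset (Fin N)} {r : ℝ}
    (hv : ∀ v ∈ V x T, φ (x v) ≤ r) {j : Fin N} (hj : j ∈ T) : φ (x j) ≤ r := by
  obtain ⟨v, hv1, hm⟩ := h.max F ⟨j, hj⟩
  exact (hm j hj).trans (hv v hv1)

theorem Aff.lt {φ : E2 → ℝ} (h : Aff φ) (F : Flg P x y) {T : Finset (Fin N)} {r : ℝ}
    (hv : ∀ v ∈ V x T, φ (x v) < r) {j : Fin N} (hj : j ∈ T) : φ (x j) < r := by
  obtain ⟨v, hv1, hm⟩ := h.max F ⟨j, hj⟩
  exact (hm j hj).trans_lt (hv v hv1)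

/-- a set of at least three flags has at least three vertices -/
theorem three_le_V (F : Flg P x y) {T : Finset (Fin N)} (hT : 3 ≤ T.card) : 3 ≤ (V x T).card := by
  by_contra hcon
  have hcon : (V x T).card ≤ 2 := by omega
  have hTne : T.Nonempty := card_pos.1 (by omega)
  obtain ⟨v, hv, -⟩ := exists_max F hTne 1 0
  -- a vertex `v` and a second one `u`
  have hvT := V_subset T hv
  obtain ⟨z, hz⟩ : (T.erase v).Nonempty := card_pos.1 (by rw [card_erase_of_mem hvT]; omega)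
  obtain ⟨hzv, hzT⟩ := mem_erase.1 hz
  obtain ⟨u, hu, humax⟩ := exists_max F hTne (x z 0 - x v 0) (x z 1 - x v 1)
  have huv : u ≠ v := by
    rintro rfl
    have h1 := humax z hzT
    have h2 : (x z 0 - x u 0) * (x z 0 - x u 0) + (x z 1 - x u 1) * (x z 1 - x u 1) ≤ 0 := by linarith
    have h3 : x z 0 - x u 0 = 0 := by nlinarith [mul_self_nonneg (x z 0 - x u 0), mul_self_nonneg (x z 1 - x u 1)]
    have h4 : x z 1 - x u 1 = 0 := by nlinarith [mul_self_nonneg (x z 0 - x u 0), mul_self_nonneg (x z 1 - x u 1)]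
    apply F.xx z u hzv
    ext i
    fin_cases i
    · show x z 0 = x u 0
      linarith
    · show x z 1 = x u 1
      linarith
  have hV : V x T = {v, u} := by
    symm
    apply eq_of_subset_of_card_le
    · intro q hq
      rw [mem_insert, mem_singleton] at hq
      rcases hq with rfl | rfl
      · exact hv
      · exact hu
    · rw [card_pair (Ne.symm huv)]
      exact hcon
  obtain ⟨q, hq⟩ : (T \ {v, u}).Nonempty := by
    apply card_pos.1
    have h1 := le_card_sdiff ({v, u} : Finset (Fin N)) T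
    have h2 : ({v, u} : Finset (Fin N)).card ≤ 2 := card_le_two
    omega
  obtain ⟨hqT, hqn⟩ := mem_sdiff.1 hq
  rw [mem_insert, mem_singleton, not_or] at hqn
  have h0 : ∀ w ∈ V x T, orient (x v) (x u) (x w) = 0 := by
    intro w hw
    rw [hV, mem_insert, mem_singleton] at hw
    rcases hw with rfl | rfl
    · exact orient_self_left _ _
    · exact orient_self_right _ _
  have h1 := (aff_orient (x v) (x u)).le F (r := 0) (fun w hw => (h0 w hw).le) hqT
  have h2 := (aff_orient (x v) (x u)).neg.le F (r := 0) (fun w hw => by rw [h0 w hw, neg_zero]) hqT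
  exact O_ne F (Ne.symm huv) (Ne.symm hqn.1) (Ne.symm hqn.2) (le_antisymm h1 (by linarith))

/-- vertices stay vertices in smaller sets -/
theorem V_mono {T T' : Finset (Fin N)} (h : T' ⊆ T) {a : Fin N} (ha : a ∈ V x T) (ha' : a ∈ T') :
    a ∈ V x T' := by
  obtain ⟨h1, h2⟩ := mem_V.1 ha
  exact mem_V.2 ⟨ha', ECG.ext_mono (image_subset_image h) (mem_image.2 ⟨a, ha', rfl⟩) h2⟩

/-- self flags are vertices -/
theorem Sf_subset_V (F : Flg P x y) (T : Finset (Fin N)) : Sf x y T ⊆ V x T := by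
  intro a ha
  obtain ⟨h1, h2⟩ := mem_Sf.1 ha
  obtain ⟨v, hv, hm⟩ := (aff_orient (x a) (y a)).max F ⟨a, h1⟩
  by_cases hva : v = a
  · rwa [hva] at hv
  · have h3 := hm a h1
    rw [orient_self_left] at h3
    have h4 := h2 v (V_subset T hv) hva
    linarith

end Pool.Agent.Lib.EcV
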